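import Pool.Agent.X109.GK.C

/-!
# An operator `T` with dense range and dense generalized kernel such that `1 + T` is not hypercyclic

For `𝕜 = ℝ` and `𝕜 = ℂ` we construct a separable Banach space `X` (an `ℓ₁`-space) and a bounded
operator `T` on `X` with dense range and dense generalized kernel such that `1 + T` is not
hypercyclic; it is not even topologically transitive: there are non-empty open sets `U`, `V` such
that no power of `1 + T` maps a point of `U` into `V`.  In particular `1 + T` is not mixing.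
-/

set_option autoImplicit false

namespace Pool.Agent.Results.MP_550623_an.NotTransitive

variable {𝕜 : Type} [RCLike 𝕜] {X : Type} [NormedAddCommGroup X] [NormedSpace 𝕜 X]

/-- some orbit of `S` is dense -/
def Hypercyclic (S : X →L[𝕜] X) : Prop :=
  ∃ x : X, Dense {y : X | ∃ n : ℕ, (S ^ n) x = y}

/-- `S` is topologically mixing -/
def Mixing (S : X →L[𝕜] X) : Prop :=
  ∀ U V : Set X, IsOpen U → IsOpen V → U.Nonempty → V.Nonempty →
    ∃ N : ℕ, ∀ n : ℕ, N ≤ n → ((fun x => (S ^ n) x) '' U ∩ V).Nonempty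

/-- the generalized kernel of `T` -/
def genKer (T : X →L[𝕜] X) : Set X := {x : X | ∃ n : ℕ, 1 ≤ n ∧ (T ^ n) x = 0}

theorem result (𝕜 : Type) [RCLike 𝕜] :
    ∃ (X : Type) (_ : NormedAddCommGroup X) (_ : NormedSpace 𝕜 X) (T : X →L[𝕜] X),
      CompleteSpace X ∧ TopologicalSpace.SeparableSpace X ∧ Nontrivial X ∧
      Dense (Set.range T) ∧ Dense (genKer T) ∧
      ¬ Hypercyclic (1 + T) ∧ ¬ Mixing (1 + T) ∧
      ∃ U V : Set X, IsOpen U ∧ IsOpen V ∧ U.Nonempty ∧ V.Nonempty ∧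
        ∀ n : ℕ, (fun x => ((1 + T) ^ n) x) '' U ∩ V = ∅ := by
  have hUV : ∀ n : ℕ, (fun x => ((1 + X109.GK.T 𝕜) ^ n) x) '' (Metric.ball 0 (1 / 2)) ∩
      Metric.ball (X109.GK.e 𝕜 .root) (1 / 2) = ∅ := by
    intro n
    rw [Set.eq_empty_iff_forall_notMem]
    rintro _ ⟨⟨x, hx, rfl⟩, hx2⟩
    rw [mem_ball_zero_iff] at hx
    rw [Metric.mem_ball, dist_eq_norm] at hx2
    have := X109.GK.far 𝕜 n x hx
    linarith
  refine ⟨X109.GK.X 𝕜, inferInstance, inferInstance, X109.GK.T 𝕜, inferInstance,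
    X109.GK.separable 𝕜, ?_, X109.GK.dense_range 𝕜, X109.GK.dense_GKer 𝕜, ?_, ?_,
    Metric.ball 0 (1 / 2), Metric.ball (X109.GK.e 𝕜 .root) (1 / 2), Metric.isOpen_ball,
    Metric.isOpen_ball, ⟨0, Metric.mem_ball_self (by norm_num)⟩,
    ⟨_, Metric.mem_ball_self (by norm_num)⟩, hUV⟩
  · exact ⟨⟨X109.GK.e 𝕜 .root, 0, by
      intro h0
      have := X109.GK.norm_e 𝕜 .root
      rw [h0, norm_zero] at this
      exact absurd this (X109.GK.W_pos .root).ne⟩⟩
  · rintro ⟨x, hx⟩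
    exact X109.GK.not_hypercyclic 𝕜 x hx
  · intro hm
    obtain ⟨N, hN⟩ := hm _ _ Metric.isOpen_ball Metric.isOpen_ball
      ⟨0, Metric.mem_ball_self (by norm_num : (0 : ℝ) < 1 / 2)⟩
      ⟨X109.GK.e 𝕜 .root, Metric.mem_ball_self (by norm_num : (0 : ℝ) < 1 / 2)⟩
    have h1 := hN N le_rfl
    rw [hUV N] at h1
    exact Set.not_nonempty_empty h1

end Pool.Agent.Results.MP_550623_an.NotTransitive
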